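import Pool.Agent.Run7.h901.PO.Iface

set_option autoImplicit false

/-! Pieces BF, UNI of the project PO. -/

namespace Run7.h648.PO

open Run7.h901.PO

theorem BF : S_BF := by
  intro A B _ _ G hfun hforth hback p0 hp0
  classical
  obtain ⟨f, hf⟩ := exists_surjective_nat (Option A)
  obtain ⟨g, hg⟩ := exists_surjective_nat (Option B)
  have step : ∀ (n : ℕ) (p : {p : Finset (A × B) // G p}), ∃ p' : {p : Finset (A × B) // G p},
      p.1 ⊆ p'.1 ∧ (∀ a, f n = some a → ∃ b, (a, b) ∈ p'.1) ∧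
        (∀ b, g n = some b → ∃ a, (a, b) ∈ p'.1) := by
    intro n p
    have h1 : ∃ p1 : {p : Finset (A × B) // G p}, p.1 ⊆ p1.1 ∧
        (∀ a, f n = some a → ∃ b, (a, b) ∈ p1.1) := by
      rcases hfn : f n with _ | a
      · exact ⟨p, subset_rfl, fun a h => by simp at h⟩
      · obtain ⟨b, p', hp', hsub, hmem⟩ := hforth p.1 p.2 a
        refine ⟨⟨p', hp'⟩, hsub, fun a' h => ?_⟩
        rw [Option.some.injEq] at h
        subst h
        exact ⟨b, hmem⟩
    obtain ⟨p1, hs1, hm1⟩ := h1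
    rcases hgn : g n with _ | b
    · exact ⟨p1, hs1, hm1, fun b h => by simp at h⟩
    · obtain ⟨a, p', hp', hsub, hmem⟩ := hback p1.1 p1.2 b
      refine ⟨⟨p', hp'⟩, hs1.trans hsub, fun a' h => ?_, fun b' h => ?_⟩
      · obtain ⟨b', hb'⟩ := hm1 a' h
        exact ⟨b', hsub hb'⟩
      · rw [Option.some.injEq] at h
        subst h
        exact ⟨a, hmem⟩
  choose nx hnx1 hnx2 hnx3 using step
  let Pn : ℕ → {p : Finset (A × B) // G p} := fun n => Nat.rec ⟨p0, hp0⟩ (fun n p => nx n p) n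
  have hsucc : ∀ n, Pn (n + 1) = nx n (Pn n) := fun n => rfl
  have hmono : ∀ m n, m ≤ n → (Pn m).1 ⊆ (Pn n).1 := by
    intro m n h
    induction n, h using Nat.le_induction with
    | base => exact subset_rfl
    | succ n _ ih => exact ih.trans (by rw [hsucc]; exact hnx1 n _)
  have hA : ∀ a, ∃ b, ∃ n, (a, b) ∈ (Pn n).1 := by
    intro a
    obtain ⟨n, hn⟩ := hf (some a)
    obtain ⟨b, hb⟩ := hnx2 n (Pn n) a hn
    exact ⟨b, n + 1, hb⟩
  have hB : ∀ b, ∃ a, ∃ n, (a, b) ∈ (Pn n).1 := by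
    intro b
    obtain ⟨n, hn⟩ := hg (some b)
    obtain ⟨a, ha⟩ := hnx3 n (Pn n) b hn
    exact ⟨a, n + 1, ha⟩
  have hU : ∀ a b a' b', (∃ n, (a, b) ∈ (Pn n).1) → (∃ n, (a', b') ∈ (Pn n).1) →
      (a = a' ↔ b = b') := by
    rintro a b a' b' ⟨n, hn⟩ ⟨m, hm⟩
    exact hfun (Pn (max n m)).1 (Pn (max n m)).2 (a, b) (hmono n _ (le_max_left _ _) hn)
      (a', b') (hmono m _ (le_max_right _ _) hm)
  choose e he using hA
  have hbij : Function.Bijective e := by
    constructor
    · intro a a' h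
      exact (hU a (e a) a' (e a') (he a) (he a')).2 h
    · intro b
      obtain ⟨a, ha⟩ := hB b
      exact ⟨a, (hU a (e a) a b (he a) ha).1 rfl⟩
  refine ⟨Equiv.ofBijective e hbij, ?_, ?_⟩
  · intro q hq
    exact (hU q.1 (e q.1) q.1 q.2 (he q.1) ⟨0, hq⟩).1 rfl
  · intro s
    choose N hN using he
    refine ⟨(Pn (s.sup N)).1, (Pn (s.sup N)).2, fun a ha => ?_⟩
    exact hmono _ _ (Finset.le_sup ha) (hN a)

/-- `KK` is invariant under isomorphisms -/
lemma KK_iso {P Q : Type} [PartialOrder P] [PartialOrder Q] (e : P ≃o Q) (c : P → P → Prop)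
    (c' : Q → Q → Prop) (hc : ∀ x y, c x y ↔ c' (e x) (e y)) (k : ℕ) (h : KK k c) : KK k c' := by
  classical
  intro A x
  obtain ⟨A0, hA0, hcard, hK⟩ := h (A.image e.symm) (e.symm x)
  refine ⟨A0.image e, ?_, Finset.card_image_le.trans hcard, ?_⟩
  · intro y hy
    obtain ⟨z, hz, rfl⟩ := Finset.mem_image.1 hy
    obtain ⟨w, hw, hwz⟩ := Finset.mem_image.1 (hA0 hz)
    rw [← hwz, e.apply_symm_apply]
    exact hw
  · intro g hg hfix
    obtain ⟨h', hh1, hh2, hh3⟩ := hK (e.trans (g.trans e.symm))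
      (by
        intro y
        rw [hc]
        simp only [OrderIso.trans_apply, OrderIso.apply_symm_apply]
        exact hg (e y))
      (by
        intro a ha
        simp only [OrderIso.trans_apply]
        rw [hfix (e a) (Finset.mem_image_of_mem _ ha), e.symm_apply_apply])
    refine ⟨e.symm.trans (h'.trans e), ?_, ?_, ?_⟩
    · intro y
      have := hh1 (e.symm y)
      rw [hc] at this
      simpa using this
    · intro a ha
      simp only [OrderIso.trans_apply]
      rw [hh2 _ (Finset.mem_image_of_mem _ ha), e.apply_symm_apply]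
    · simp only [OrderIso.trans_apply] at hh3 ⊢
      rw [hh3]
      simp

theorem KK_mono {P : Type} [PartialOrder P] {c : P → P → Prop} {k k' : ℕ} (hk : k ≤ k')
    (h : KK k c) : KK k' c := by
  intro A x
  obtain ⟨A0, h1, h2, h3⟩ := h A x
  exact ⟨A0, h1, h2.trans hk, h3⟩

theorem UNI : S_BAS → S_UNI := by
  intro hBAS P _ c hc ⟨n, f, hf⟩ hK
  classical
  obtain ⟨hAW, -, -, -, -, -, -, -, -, hBeq, -, -, -, -, -, -, -, hBinv, -⟩ := hBAS P c hc
  choose k hk using hK
  -- representatives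
  let rep : Fin n → ℕ := fun v => if h : ∃ x, f x x = v then k h.choose else 0
  refine ⟨Finset.univ.sup rep, fun x => ?_⟩
  have hex : ∃ y, f y y = f x x := ⟨x, rfl⟩
  have hle : k hex.choose ≤ Finset.univ.sup rep := by
    have : rep (f x x) = k hex.choose := by
      show (if h : ∃ y, f y y = f x x then k h.choose else 0) = _
      rw [dif_pos hex]
    rw [← this]
    exact Finset.le_sup (Finset.mem_univ _)
  set x0 := hex.choose with hx0
  obtain ⟨g, hg, hgx, -⟩ := hf x0 x0 x x hex.choose_spec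
  have hB : ∀ y z, Blk c y z ↔ Blk c (g y) (g z) := hBinv g (hAW g hg)
  let e : {y : P // Blk c x0 y} ≃o {y : P // Blk c x y} :=
    { toFun := fun y => ⟨g y.1, by rw [← hgx]; exact (hB _ _).1 y.2⟩
      invFun := fun y => ⟨g.symm y.1, by
        rw [hB, hgx, g.apply_symm_apply]; exact y.2⟩
      left_inv := fun y => Subtype.ext (g.symm_apply_apply _)
      right_inv := fun y => Subtype.ext (g.apply_symm_apply _)
      map_rel_iff' := by
        intro a b
        exact g.le_iff_le }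
  refine KK_mono hle (KK_iso e (rb c x0) (rb c x) ?_ _ (hk x0))
  intro y z
  exact hAW g hg y.1 z.1

end Run7.h648.PO
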