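import Pool.Agent.Run7.h901.PO.Iface

set_option autoImplicit false
open scoped FirstOrder

/-! Piece FIN of the project PO: finite structures in the language of order. -/

namespace Run7.h648.PO

open Run7.h901.PO FirstOrder FirstOrder.Language FirstOrder.Language.BoundedFormula

/-- variable `i` -/
abbrev vr {n : ℕ} (i : Fin n) : Language.order.Term (Empty ⊕ Fin n) := Term.var (Sum.inr i)

open Classical in
/-- the diagram of a relation on `Fin n` -/
noncomputable def diag (n : ℕ) (r : Fin n → Fin n → Prop) : Language.order.BoundedFormula Empty n :=
  (BoundedFormula.iInf fun p : Fin n × Fin n =>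
    if r p.1 p.2 then (leSymb : Language.order.Relations 2).boundedFormula₂ (vr p.1) (vr p.2)
    else ((leSymb : Language.order.Relations 2).boundedFormula₂ (vr p.1) (vr p.2)).not) ⊓
  ((BoundedFormula.iInf fun p : Fin n × Fin n =>
    if p.1 = p.2 then ⊤ else ((vr p.1).bdEqual (vr p.2)).not) ⊓
  (BoundedFormula.iSup fun i : Fin n =>
    (vr (Fin.last n)).bdEqual (vr (Fin.castSucc i))).all)

lemma realize_diag (n : ℕ) (r : Fin n → Fin n → Prop) (M : Type) [Language.order.Structure M]
    (xs : Fin n → M) : (diag n r).Realize (default : Empty → M) xs ↔
      (∀ i j, Structure.RelMap (leSymb : Language.order.Relations 2) ![xs i, xs j] ↔ r i j) ∧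
        Function.Bijective xs := by
  classical
  unfold diag
  rw [realize_inf, realize_inf, realize_iInf, realize_iInf, realize_all]
  constructor
  · rintro ⟨h1, h2, h3⟩
    refine ⟨fun i j => ?_, ?_, ?_⟩
    · have := h1 (i, j)
      by_cases hr : r i j
      · rw [if_pos hr, realize_rel₂] at this
        exact ⟨fun _ => hr, fun _ => this⟩
      · rw [if_neg hr, realize_not, realize_rel₂] at this
        exact ⟨fun h => absurd h this, fun h => absurd h hr⟩
    · intro i j hij
      by_contra hne
      have := h2 (i, j)
      rw [if_neg hne, realize_not, realize_bdEqual] at this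
      exact this hij
    · intro y
      have := h3 y
      rw [realize_iSup] at this
      obtain ⟨i, hi⟩ := this
      rw [realize_bdEqual] at hi
      refine ⟨i, ?_⟩
      simpa using hi.symm
  · rintro ⟨h1, h2, h3⟩
    refine ⟨fun p => ?_, fun p => ?_, fun y => ?_⟩
    · by_cases hr : r p.1 p.2
      · rw [if_pos hr, realize_rel₂]
        exact (h1 _ _).2 hr
      · rw [if_neg hr, realize_not, realize_rel₂]
        exact fun h => hr ((h1 _ _).1 h)
    · by_cases hr : p.1 = p.2
      · rw [if_pos hr]
        exact realize_top.2 trivial
      · rw [if_neg hr, realize_not, realize_bdEqual]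
        exact fun h => hr (h2 h)
    · rw [realize_iSup]
      obtain ⟨i, hi⟩ := h3 y
      refine ⟨i, ?_⟩
      rw [realize_bdEqual]
      simpa using hi.symm

theorem FIN : S_FIN := by
  intro M _ hfin
  classical
  obtain ⟨n, ⟨e⟩⟩ := Finite.exists_equiv_fin M
  let r : Fin n → Fin n → Prop := fun i j =>
    Structure.RelMap (leSymb : Language.order.Relations 2) ![e.symm i, e.symm j]
  let σ : Language.order.Sentence := (diag n r).exs
  have hreal : ∀ (N : Type) [Language.order.Structure N], N ⊨ σ ↔ ∃ xs : Fin n → N,
      (∀ i j, Structure.RelMap (leSymb : Language.order.Relations 2) ![xs i, xs j] ↔ r i j) ∧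
        Function.Bijective xs := by
    intro N _
    show (diag n r).exs.Realize (default : Empty → N) ↔ _
    rw [realize_exs]
    exact exists_congr fun xs => realize_diag n r N xs
  refine ⟨{σ}, ?_, ?_⟩
  · intro φ hφ
    rw [Finset.coe_singleton, Set.mem_singleton_iff] at hφ
    rw [hφ, mem_completeTheory, hreal]
    exact ⟨e.symm, fun i j => Iff.rfl, e.symm.bijective⟩
  · intro φ hφ
    rw [mem_completeTheory] at hφ
    rw [Theory.models_sentence_iff]
    intro N
    have hN : N ⊨ σ := Theory.realize_sentence_of_mem (T := (↑({σ} : Finset _) : Language.order.Theory))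
      (by rw [Finset.coe_singleton]; exact Set.mem_singleton _)
    obtain ⟨xs, h1, h2⟩ := (hreal N).1 hN
    let E : M ≃[Language.order] N :=
      { toEquiv := e.trans (Equiv.ofBijective xs h2)
        map_fun' := fun f => isEmptyElim f
        map_rel' := by
          intro m R x
          cases R
          have := h1 (e (x 0)) (e (x 1))
          have e1 : r (e (x 0)) (e (x 1)) ↔
              Structure.RelMap (leSymb : Language.order.Relations 2) x := by
            show Structure.RelMap _ ![e.symm (e (x 0)), e.symm (e (x 1))] ↔ _
            rw [e.symm_apply_apply, e.symm_apply_apply]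
            have : ![x 0, x 1] = x := by
              funext i
              fin_cases i <;> rfl
            rw [this]
          have e2 : (fun i => (e.trans (Equiv.ofBijective xs h2)) (x i))
              = ![xs (e (x 0)), xs (e (x 1))] := by
            funext i
            fin_cases i <;> rfl
          show Structure.RelMap (leSymb : Language.order.Relations 2)
            (fun i => (e.trans (Equiv.ofBijective xs h2)) (x i)) ↔
              Structure.RelMap (leSymb : Language.order.Relations 2) x
          rw [e2, this, e1] }
    exact (StrongHomClass.realize_sentence E φ).1 hφ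

end Run7.h648.PO
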